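import Pool.Agent.TH462.PW.Red
import Pool.Agent.H170.Reg.Gr

set_option autoImplicit false

/-! # Integer flows from flows modulo `k`, and two even sets from a 4-flow -/

namespace Pool.Agent.TH462.PW

open Finset Pool.Agent.H239R2.Cover Pool.Agent.H170.Reg

section
variable {V E : Type} [Fintype V] [DecidableEq V] [Fintype E] [DecidableEq E]

/-- the integer incidence number -/
def icz (src dst : E → V) (e : E) (v : V) : ℤ :=
  (if src e = v then 1 else 0) - (if dst e = v then 1 else 0)

theorem int_mod (k : ℕ) (hk : 0 < k) (src dst : E → V) (f : E → ℤ)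
    (hf : ∀ e, 1 ≤ f e ∧ f e ≤ k - 1)
    (hd : ∀ v, (k : ℤ) ∣ ∑ e, f e * icz src dst e v) :
    ∃ F : E → ℤ, (∀ e, 1 ≤ |F e| ∧ |F e| ≤ k - 1) ∧ ∀ v, ∑ e, F e * icz src dst e v = 0 := by
  classical
  rcases isEmpty_or_nonempty V with hV | ⟨⟨r⟩⟩
  · exact ⟨fun _ => 0, fun e => (hV.false (src e)).elim, fun v => (hV.false v).elim⟩
  have hdiv : ∀ v : Rt r, ((k : ℕ) : ℤ) ∣ ∑ e, f e * inc src dst r e v := by
    intro v
    exact hd v.1
  choose a' ha' using hdiv
  obtain ⟨F, hF, hF0⟩ := int_of_mod (inc src dst r) (unimod_inc src dst r) k hk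
    f a' hf (by
      ext v
      simp only [Finset.sum_apply, Pi.smul_apply, smul_eq_mul]
      exact ha' v)
  refine ⟨F, hF, fun v => flow_root src dst F r (fun v hv => ?_) v⟩
  have h2 := congrFun hF0 ⟨v, hv⟩
  simp only [Finset.sum_apply, Pi.smul_apply, smul_eq_mul, inc, Pi.zero_apply] at h2
  exact h2

theorem int_flow (src dst : E → V) (h : NZF src dst) :
    ∃ F : E → ℤ, (∀ e, 1 ≤ |F e| ∧ |F e| ≤ 3) ∧
      ∀ v, ∑ e, F e * icz src dst e v = 0 := by
  classical
  obtain ⟨f, hf, hfb⟩ := h
  obtain ⟨F, hF, hF0⟩ := int_mod 4 (by omega) src dst (fun e => ((f e).val : ℤ)) (fun e => by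
      have h1 : f e ≠ 0 := hf e
      have h2 : (f e).val ≠ 0 := by rwa [Ne, ZMod.val_eq_zero]
      have h3 := ZMod.val_lt (f e)
      constructor
      · omega
      · push_cast; omega) (by
    intro v
    rw [← ZMod.intCast_zmod_eq_zero_iff_dvd]
    push_cast
    have h1 := hfb v
    rw [← h1]
    refine Finset.sum_congr rfl fun e _ => ?_
    rw [ZMod.natCast_val, ZMod.cast_id]
    simp [icz, ic])
  refine ⟨F, fun e => ?_, hF0⟩
  have := hF e
  push_cast at this
  constructor
  · exact this.1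
  · linarith [this.2]

end

variable {V E : Type} [Fintype V] [DecidableEq V] [Fintype E] [DecidableEq E]

theorem even_of_flow (src dst : E → V) (F : E → ℤ)
    (hF : ∀ v, ∑ e, F e * icz src dst e v = 0) (v : V) :
    Even ((univ.filter (fun e => Odd (F e) ∧ src e = v)).card
      + (univ.filter (fun e => Odd (F e) ∧ dst e = v)).card) := by
  classical
  have h1 : ∀ e, ((F e * icz src dst e v : ℤ) : ZMod 2)
      = (if Odd (F e) ∧ src e = v then 1 else 0) + (if Odd (F e) ∧ dst e = v then 1 else 0) := by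
    intro e
    unfold icz
    by_cases ho : Odd (F e)
    · have h2 : ((F e : ℤ) : ZMod 2) = 1 := ZMod.intCast_eq_one_iff_odd.mpr ho
      by_cases hs : src e = v <;> by_cases hd : dst e = v <;>
        simp [ho, hs, hd, h2, CharTwo.neg_eq, CharTwo.add_self_eq_zero]
    · have h2 : ((F e : ℤ) : ZMod 2) = 0 :=
        (ZMod.intCast_eq_zero_iff_even).mpr (Int.not_odd_iff_even.mp ho)
      simp [ho, h2]
  have h2 := congrArg (Int.cast : ℤ → ZMod 2) (hF v)
  rw [Int.cast_sum, sum_congr rfl (fun e _ => h1 e), sum_add_distrib] at h2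
  simp only [Finset.sum_boole, Int.cast_zero] at h2
  rw [← ZMod.natCast_eq_zero_iff_even]
  push_cast
  exact h2

/-- **A 4-flow gives two even sets which cover all edges.** -/
theorem two_even (src dst : E → V) (F : E → ℤ) (hF : ∀ e, 1 ≤ |F e| ∧ |F e| ≤ 3)
    (hF0 : ∀ v, ∑ e, F e * icz src dst e v = 0) :
    ∃ F1 F2 : E → ℤ, (∀ v, ∑ e, F1 e * icz src dst e v = 0) ∧
      (∀ v, ∑ e, F2 e * icz src dst e v = 0) ∧ ∀ e, Odd (F1 e) ∨ Odd (F2 e) := by
  classical
  obtain ⟨g, hg, hg0⟩ := int_mod (V := V) (E := {e : E // Odd (F e)}) 2 (by omega)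
    (fun e => src e.1) (fun e => dst e.1) (fun _ => 1) (fun e => by norm_num)
    (by
      intro v
      rw [← ZMod.intCast_zmod_eq_zero_iff_dvd]
      have h2 := congrArg (Int.cast : ℤ → ZMod 2) (hF0 v)
      rw [Int.cast_sum] at h2
      rw [Int.cast_sum]
      have h3 : ∑ e, ((F e * icz src dst e v : ℤ) : ZMod 2)
          = ∑ e ∈ univ.filter (fun e => Odd (F e)), ((1 * icz src dst e v : ℤ) : ZMod 2) := by
        rw [sum_filter]
        refine sum_congr rfl fun e _ => ?_
        by_cases ho : Odd (F e)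
        · have h4 : ((F e : ℤ) : ZMod 2) = 1 := ZMod.intCast_eq_one_iff_odd.mpr ho
          rw [if_pos ho]; push_cast; rw [h4]
        · have h4 : ((F e : ℤ) : ZMod 2) = 0 :=
            (ZMod.intCast_eq_zero_iff_even).mpr (Int.not_odd_iff_even.mp ho)
          rw [if_neg ho]; push_cast; rw [h4]; ring
      rw [h3] at h2
      rw [← Finset.sum_subtype_eq_sum_filter] at h2
      have h5 : (Finset.subtype (fun e => Odd (F e)) univ : Finset {e : E // Odd (F e)}) = univ := by
        ext e; simp
      rw [h5] at h2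
      simpa [icz] using h2)
  let G : E → ℤ := fun e => if h : Odd (F e) then g ⟨e, h⟩ else 0
  have hG0 : ∀ v, ∑ e, G e * icz src dst e v = 0 := by
    intro v
    have h3 : ∑ e, G e * icz src dst e v
        = ∑ e ∈ univ.filter (fun e => Odd (F e)), G e * icz src dst e v := by
      rw [sum_filter]
      refine sum_congr rfl fun e _ => ?_
      by_cases ho : Odd (F e)
      · rw [if_pos ho]
      · rw [if_neg ho]; simp only [G]; rw [dif_neg ho]; ring
    rw [h3, ← Finset.sum_subtype_eq_sum_filter]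
    have h5 : (Finset.subtype (fun e => Odd (F e)) univ : Finset {e : E // Odd (F e)}) = univ := by
      ext e; simp
    rw [h5, ← hg0 v]
    refine sum_congr rfl fun e _ => ?_
    simp only [G]
    rw [dif_pos e.2]
    rfl
  have hGF : ∀ e, ∃ h : ℤ, F e - G e = 2 * h := by
    intro e
    by_cases ho : Odd (F e)
    · have h1 := hg ⟨e, ho⟩
      have h2 : |g ⟨e, ho⟩| = 1 := by
        have := h1.1; have h3 := h1.2; push_cast at h3; omega
      have h4 : Odd (G e) := by
        simp only [G]; rw [dif_pos ho]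
        rcases abs_eq (by norm_num : (0:ℤ) ≤ 1) |>.mp h2 with h | h <;> rw [h] <;> decide
      obtain ⟨a, ha⟩ := ho
      obtain ⟨b, hb⟩ := h4
      exact ⟨a - b, by rw [ha, hb]; ring⟩
    · have h4 : G e = 0 := by simp only [G]; rw [dif_neg ho]
      obtain ⟨a, ha⟩ := Int.not_odd_iff_even.mp ho
      exact ⟨a, by rw [h4, ha]; ring⟩
  choose H hH using hGF
  refine ⟨F, H, hF0, fun v => ?_, fun e => ?_⟩
  · have h1 : ∑ e, (F e - G e) * icz src dst e v = 0 := by
      simp only [sub_mul]
      rw [sum_sub_distrib, hF0 v, hG0 v, sub_zero]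
    have h2 : ∑ e, (F e - G e) * icz src dst e v = 2 * ∑ e, H e * icz src dst e v := by
      rw [mul_sum]
      refine sum_congr rfl fun e _ => ?_
      rw [hH e]; ring
    rw [h2] at h1
    omega
  · by_cases ho : Odd (F e)
    · exact Or.inl ho
    · right
      have h4 : G e = 0 := by simp only [G]; rw [dif_neg ho]
      have h5 := hH e
      rw [h4, sub_zero] at h5
      have h6 := hF e
      rw [h5, abs_mul, abs_two] at h6
      have h7 : |H e| = 1 := by omega
      rcases abs_eq (by norm_num : (0:ℤ) ≤ 1) |>.mp h7 with h | h <;> rw [h] <;> decide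

end Pool.Agent.TH462.PW
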