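import Pool.Agent.TH462.PW.Ops

set_option autoImplicit false

/-! # Correctness of the masks -/

namespace Pool.Agent.TH462.PW

theorem tb_pow (a c : ℕ) : (2 ^ a).testBit c = true ↔ c = a := by
  rw [Nat.testBit_two_pow]
  simp [eq_comm]

theorem extM_mem {w M : ℕ} (hM : ∀ c, M.testBit c = true → c < w) (y c : ℕ) :
    (extM w M y).testBit c = true ↔ M.testBit (c % w) = true ∧ c / w < y := by
  induction y with
  | zero => simp [extM]
  | succ y ih =>
    have h1 : extM w M (y + 1) = Nat.lor (extM w M y) (Nat.shiftLeft M (y * w)) := rfl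
    rw [h1, tb_lor, tb_shl, Bool.or_eq_true, ih, Bool.and_eq_true, decide_eq_true_eq]
    rcases Nat.eq_zero_or_pos w with hw | hw
    · subst hw
      constructor
      · rintro (⟨h, _⟩ | ⟨_, h⟩)
        · exact absurd (hM _ h) (by omega)
        · exact absurd (hM _ h) (by omega)
      · rintro ⟨h, _⟩
        exact absurd (hM _ h) (by omega)
    constructor
    · rintro (⟨h, h2⟩ | ⟨h2, h⟩)
      · exact ⟨h, by omega⟩
      · have h3 := hM _ h
        have h4 : c / w = y := by
          apply Nat.div_eq_of_lt_le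
          · omega
          · rw [add_mul]; omega
        have h5 : c - y * w = c % w := by
          have := Nat.div_add_mod c w
          rw [h4, mul_comm] at this
          omega
        rw [← h5, h4]
        exact ⟨h, by omega⟩
    · rintro ⟨h, h2⟩
      rcases Nat.lt_or_ge (c / w) y with h3 | h3
      · exact Or.inl ⟨h, h3⟩
      · right
        have h4 : c / w = y := by omega
        have h5 : c - y * w = c % w := by
          have := Nat.div_add_mod c w
          rw [h4, mul_comm] at this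
          omega
        rw [h5]
        refine ⟨?_, h⟩
        have := Nat.div_mul_le_self c w
        rw [h4] at this
        exact this

theorem dg_mod {b : ℕ} (hb : 0 < b) (c : ℕ) {p m : ℕ} (h : p < m) :
    dg b (c % b ^ m) p = dg b c p := by
  obtain ⟨d, rfl⟩ := Nat.exists_eq_add_of_lt h
  have h1 := Nat.div_add_mod c (b ^ (p + d + 1))
  conv_rhs => rw [← h1]
  unfold dg
  have h2 : b ^ (p + d + 1) * (c / b ^ (p + d + 1)) + c % b ^ (p + d + 1)
      = c % b ^ (p + d + 1) + b ^ p * (b ^ d * (c / b ^ (p + d + 1)) * b) := by ring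
  rw [h2, Nat.add_mul_div_left _ _ (pow_pos hb p), Nat.add_mul_mod_self_right]

theorem dM_mem {b : ℕ} (hb : 0 < b) {a : ℕ} (ha : a < b) (p t c : ℕ) :
    (dM b p a t).testBit c = true ↔ c < b ^ (p + 1 + t) ∧ dg b c p = a := by
  induction t generalizing c with
  | zero =>
    have h1 : dM b p a 0 = Nat.shiftLeft (2 ^ (b ^ p) - 1) (a * b ^ p) := rfl
    rw [h1, tb_shl, Bool.and_eq_true, decide_eq_true_eq, Nat.testBit_two_pow_sub_one,
      decide_eq_true_eq]
    have hp := pow_pos hb p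
    have e1 : b ^ (p + 1 + 0) = b * b ^ p := by rw [add_zero, pow_succ, mul_comm]
    rw [e1]
    unfold dg
    constructor
    · rintro ⟨h2, h3⟩
      have h4 : c / b ^ p = a := by
        apply Nat.div_eq_of_lt_le h2
        rw [add_mul]; omega
      refine ⟨?_, by rw [h4, Nat.mod_eq_of_lt ha]⟩
      calc c < a * b ^ p + b ^ p := by omega
        _ = (a + 1) * b ^ p := by ring
        _ ≤ b * b ^ p := Nat.mul_le_mul_right _ ha
    · rintro ⟨h2, h3⟩
      have h4 : c / b ^ p < b := by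
        rw [Nat.div_lt_iff_lt_mul hp]; exact h2
      rw [Nat.mod_eq_of_lt h4] at h3
      have h5 := Nat.div_add_mod c (b ^ p)
      have h6 := Nat.mod_lt c hp
      have h7 := Nat.div_mul_le_self c (b ^ p)
      rw [h3, mul_comm] at h5
      rw [h3] at h7
      exact ⟨h7, by omega⟩
  | succ t ih =>
    have h1 : dM b p a (t + 1) = extM (b ^ (p + 1 + t)) (dM b p a t) b := rfl
    rw [h1, extM_mem (fun c hc => ((ih c).mp hc).1), ih]
    have hp := pow_pos hb (p + 1 + t)
    rw [dg_mod hb c (by omega), Nat.div_lt_iff_lt_mul hp]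
    have e1 : b ^ (p + 1 + (t + 1)) = b * b ^ (p + 1 + t) := by rw [← add_assoc, pow_succ, mul_comm]
    rw [e1]
    constructor
    · rintro ⟨⟨_, h2⟩, h3⟩
      exact ⟨h3, h2⟩
    · rintro ⟨h2, h3⟩
      exact ⟨⟨Nat.mod_lt _ hp, h3⟩, h2⟩

theorem orR_mem (f : ℕ → ℕ) (y c : ℕ) :
    (orR f y).testBit c = true ↔ ∃ x, x < y ∧ (f x).testBit c = true := by
  induction y with
  | zero => simp [orR]
  | succ y ih =>
    have h1 : orR f (y + 1) = Nat.lor (orR f y) (f y) := rfl
    rw [h1, tb_lor, Bool.or_eq_true, ih]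
    constructor
    · rintro (⟨x, h2, h3⟩ | h)
      · exact ⟨x, by omega, h3⟩
      · exact ⟨y, by omega, h⟩
    · rintro ⟨x, h2, h3⟩
      rcases Nat.lt_or_ge x y with h4 | h4
      · exact Or.inl ⟨x, h4, h3⟩
      · have : x = y := by omega
        subst this
        exact Or.inr h3

/-- digit sum -/
def dsm (b n c : ℕ) : ℕ := ∑ i ∈ Finset.range n, dg b c i

theorem sM_mem {b : ℕ} (hb : 0 < b) (n : ℕ) : ∀ (s c : ℕ), s < b →
    (sM b n s).testBit c = true → c < b ^ n ∧ dsm b n c % b = s := by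
  induction n with
  | zero =>
    intro s c hs h
    unfold sM at h
    split_ifs at h with h0
    · subst h0
      have : c = 0 := by
        have h' : (2 ^ 0).testBit c = true := by rw [pow_zero]; exact h
        exact (tb_pow 0 c).mp h'
      subst this
      simp [dsm]
    · simp at h
  | succ n ih =>
    intro s c hs h
    have h1 : sM b (n + 1) s
        = orR (fun x => Nat.shiftLeft (sM b n ((s + b - x) % b)) (x * b ^ n)) b := rfl
    rw [h1, orR_mem] at h
    obtain ⟨x, hx, h2⟩ := h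
    rw [tb_shl, Bool.and_eq_true, decide_eq_true_eq] at h2
    obtain ⟨h3, h4⟩ := h2
    obtain ⟨h5, h6⟩ := ih _ _ (Nat.mod_lt _ hb) h4
    obtain ⟨c0, rfl⟩ : ∃ c0, c = c0 + x * b ^ n := ⟨c - x * b ^ n, by omega⟩
    rw [Nat.add_sub_cancel] at h5 h6
    have h7 : dg b c0 n = 0 := by
      unfold dg
      rw [Nat.div_eq_of_lt h5, Nat.zero_mod]
    refine ⟨?_, ?_⟩
    · calc c0 + x * b ^ n < b ^ n + x * b ^ n := by omega
        _ = (x + 1) * b ^ n := by ring
        _ ≤ b * b ^ n := Nat.mul_le_mul_right _ hx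
        _ = b ^ (n + 1) := by rw [pow_succ, mul_comm]
    · have h8 : dsm b (n + 1) (c0 + x * b ^ n) = dsm b n c0 + x := by
        unfold dsm
        rw [Finset.sum_range_succ, dg_add hb h7 hx, if_pos rfl]
        congr 1
        refine Finset.sum_congr rfl fun i hi => ?_
        rw [dg_add hb h7 hx, if_neg (Finset.mem_range.mp hi).ne]
      rw [h8, Nat.add_mod, h6, Nat.mod_add_mod, Nat.mod_eq_of_lt hx]
      have h11 : s + b - x + x = s + b := by omega
      rw [h11, Nat.add_mod_right, Nat.mod_eq_of_lt hs]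

theorem mkSw_ok {b : ℕ} (hb : 1 < b) {n p q : ℕ} (hpq : p < q) (hq : q < n) :
    (mkSw b n p q).OK b n p q := by
  have hb0 : 0 < b := by omega
  have ep : p + 1 + (n - 1 - p) = n := by omega
  have eq : q + 1 + (n - 1 - q) = n := by omega
  refine ⟨rfl, ?_, ?_, ?_, ?_, ?_⟩
  · simp [mkSw]; omega
  · simp [mkSw]; omega
  · intro c hc h
    simp only [mkSw]
    rw [orR_mem]
    refine ⟨dg b c p, dg_lt hb0 _ _, ?_⟩
    rw [tb_land, Bool.and_eq_true, dM_mem hb0 (dg_lt hb0 _ _), dM_mem hb0 (dg_lt hb0 _ _), ep, eq]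
    exact ⟨⟨hc, rfl⟩, hc, h.symm⟩
  · intro c j hc hj h
    simp only [mkSw, List.getElem_map, List.getElem_range]
    have h1 := dg_lt hb0 c p
    rw [orR_mem]
    refine ⟨dg b c q, by omega, ?_⟩
    rw [tb_land, Bool.and_eq_true, dM_mem hb0 (by omega), dM_mem hb0 (dg_lt hb0 _ _), ep, eq]
    exact ⟨⟨hc, by omega⟩, hc, rfl⟩
  · intro c j hc hj h
    simp only [mkSw, List.getElem_map, List.getElem_range]
    have h1 := dg_lt hb0 c q
    rw [orR_mem]
    refine ⟨dg b c p, by omega, ?_⟩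
    rw [tb_land, Bool.and_eq_true, dM_mem hb0 (dg_lt hb0 _ _), dM_mem hb0 (by omega), ep, eq]
    exact ⟨⟨hc, rfl⟩, hc, by omega⟩

/-- the position record is sound -/
structure PosR.OK (n : ℕ) (r : PosR) : Prop where
  w : r.w = 4 ^ r.p
  d0 : ∀ c, r.d0.testBit c = true → dg 4 c r.p = 0
  d1 : ∀ c, r.d1.testBit c = true → dg 4 c r.p = 1
  d2 : ∀ c, r.d2.testBit c = true → dg 4 c r.p = 2
  d3 : ∀ c, r.d3.testBit c = true → dg 4 c r.p = 3
  jw : r.jw = 2 ^ r.p
  j1 : ∀ c, r.j1.testBit c = true → dg 2 c r.p = 1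
  j0 : ∀ c, r.j0.testBit c = true → dg 2 c r.p = 0
  fm : ∀ c, r.fm.testBit c = true → c = 2 ^ r.p ∨ c = 2 ^ (n + 1) - 1 - 2 ^ r.p

theorem mkPos_ok {n p : ℕ} : (mkPos n (n + 1) p).OK n where
  w := rfl
  d0 := fun c h => ((dM_mem (by norm_num) (by norm_num) _ _ _).mp h).2
  d1 := fun c h => ((dM_mem (by norm_num) (by norm_num) _ _ _).mp h).2
  d2 := fun c h => ((dM_mem (by norm_num) (by norm_num) _ _ _).mp h).2
  d3 := fun c h => ((dM_mem (by norm_num) (by norm_num) _ _ _).mp h).2
  jw := rfl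
  j1 := fun c h => ((dM_mem (by norm_num) (by norm_num) _ _ _).mp h).2
  j0 := fun c h => ((dM_mem (by norm_num) (by norm_num) _ _ _).mp h).2
  fm := fun c h => by
    change (Nat.lor (2 ^ (2 ^ p)) (2 ^ (2 ^ (n + 1) - 1 - 2 ^ p))).testBit c = true at h
    rw [tb_lor, Bool.or_eq_true, tb_pow, tb_pow] at h
    exact h

/-- the environment is sound for `n` digits -/
structure Env.OK (n : ℕ) (E : Env) (dflt : SwR) : Prop where
  pos : ∀ k, k ≤ n → ∀ r ∈ E.pos.take k, r.OK n ∧ r.p < k
  cov : ∀ k, k ≤ n → ∀ i, i < k → ∃ r ∈ E.pos.take k, r.p = i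
  nd : ∀ k, k ≤ n → ((E.pos.take k).map PosR.p).Nodup
  s0 : ∀ c, E.s0.testBit c = true → ((dsm 4 n c : ℕ) : ZMod 4) = 0
  s1 : ∀ c, E.s1.testBit c = true → ((dsm 4 n c : ℕ) : ZMod 4) = 1
  s2 : ∀ c, E.s2.testBit c = true → ((dsm 4 n c : ℕ) : ZMod 4) = 2
  s3 : ∀ c, E.s3.testBit c = true → ((dsm 4 n c : ℕ) : ZMod 4) = 3
  sw : ∀ d, (nth dflt E.sw d).a.OK 4 n (nth dflt E.sw d).p (nth dflt E.sw d).q ∧
    (nth dflt E.sw d).b.OK 2 n (nth dflt E.sw d).p (nth dflt E.sw d).q ∧
    (nth dflt E.sw d).p < (nth dflt E.sw d).q ∧ (nth dflt E.sw d).q < n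

theorem nth_mem {α : Type} (d : α) : ∀ (l : List α) (i : ℕ), nth d l i = d ∨ nth d l i ∈ l := by
  intro l
  induction l with
  | nil => intro i; exact Or.inl rfl
  | cons x xs ih =>
    intro i
    rcases i with _ | i
    · exact Or.inr (List.mem_cons_self ..)
    · rcases ih i with h | h
      · exact Or.inl h
      · exact Or.inr (List.mem_cons_of_mem _ h)

theorem mem_pairsU {n : ℕ} {x : ℕ × ℕ} (h : x ∈ pairsU n) : x.1 < x.2 ∧ x.2 < n := by
  induction n with
  | zero => simp [pairsU] at h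
  | succ n ih =>
    rw [pairsU, List.mem_append] at h
    rcases h with h | h
    · have := ih h; omega
    · rw [List.mem_map] at h
      obtain ⟨p, hp, rfl⟩ := h
      rw [List.mem_range] at hp
      exact ⟨hp, by simp⟩

theorem cast_of_mod {x s : ℕ} (h : x % 4 = s) : ((x : ℕ) : ZMod 4) = (s : ZMod 4) := by
  rw [← h, ZMod.natCast_mod]

theorem mkEnv_ok {n : ℕ} (hn : 2 ≤ n) : (mkEnv n).OK n (mkSwR n 0 1) := by
  have e1 : ∀ k, k ≤ n → (mkEnv n).pos.take k = (List.range k).map (mkPos n (n + 1)) := by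
    intro k hk
    change ((List.range n).map (mkPos n (n + 1))).take k = _
    rw [← List.map_take, List.take_range, min_eq_left hk]
  refine ⟨?_, ?_, ?_, ?_, ?_, ?_, ?_, ?_⟩
  · intro k hk r hr
    rw [e1 k hk, List.mem_map] at hr
    obtain ⟨p, hp, rfl⟩ := hr
    rw [List.mem_range] at hp
    exact ⟨mkPos_ok, hp⟩
  · intro k hk i hi
    rw [e1 k hk]
    exact ⟨mkPos n (n + 1) i, List.mem_map_of_mem (List.mem_range.mpr hi), rfl⟩
  · intro k hk
    rw [e1 k hk, List.map_map]
    have : (PosR.p ∘ mkPos n (n + 1)) = id := by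
      funext i; rfl
    rw [this, List.map_id]
    exact List.nodup_range
  · intro c h
    simpa using cast_of_mod (sM_mem (by norm_num) n 0 c (by norm_num) h).2
  · intro c h
    simpa using cast_of_mod (sM_mem (by norm_num) n 1 c (by norm_num) h).2
  · intro c h
    simpa using cast_of_mod (sM_mem (by norm_num) n 2 c (by norm_num) h).2
  · intro c h
    simpa using cast_of_mod (sM_mem (by norm_num) n 3 c (by norm_num) h).2
  · intro d
    rcases nth_mem (mkSwR n 0 1) (mkEnv n).sw d with h | h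
    · rw [h]
      exact ⟨mkSw_ok (by norm_num) (by norm_num [mkSwR]) (by simp [mkSwR]; omega),
        mkSw_ok (by norm_num) (by norm_num [mkSwR]) (by simp [mkSwR]; omega),
        by norm_num [mkSwR], by simp [mkSwR]; omega⟩
    · change _ ∈ ((pairsU n).map fun x => mkSwR n x.1 x.2) at h
      rw [List.mem_map] at h
      obtain ⟨x, hx, h⟩ := h
      have h2 := mem_pairsU hx
      rw [← h]
      exact ⟨mkSw_ok (by norm_num) h2.1 h2.2, mkSw_ok (by norm_num) h2.1 h2.2, h2.1, h2.2⟩

end Pool.Agent.TH462.PW
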