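import Pool.Agent.TH462.PW.Step

set_option autoImplicit false

/-! # Reductions: small cuts and parallel edges -/

namespace Pool.Agent.TH462.PW

open Finset

variable {V E : Type} [Fintype V] [DecidableEq V] [Fintype E] [DecidableEq E]

/-- a nowhere-zero flow modulo four -/
def NZF (src dst : E → V) : Prop :=
  ∃ f : E → ZMod 4, (∀ e, f e ≠ 0) ∧ ∀ x, ∑ e, f e * ic src dst e x = 0

/-- the edges with exactly one end in `Y` -/
def dlt (src dst : E → V) (Y : Finset V) : Finset E :=
  univ.filter (fun e => ¬ (src e ∈ Y ↔ dst e ∈ Y))

omit [Fintype V] [DecidableEq E] in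
theorem mem_dlt {src dst : E → V} {Y : Finset V} {e : E} :
    e ∈ dlt src dst Y ↔ ¬ (src e ∈ Y ↔ dst e ∈ Y) := by
  simp [dlt]

def phi (u v : V) (x : V) : V := if x = v then u else x

omit [Fintype V] [Fintype E] [DecidableEq E] in
theorem ic_loop {src dst : E → V} {e : E} (h : src e = dst e) (x : V) : ic src dst e x = 0 := by
  unfold ic; rw [h]; simp

omit [Fintype E] [DecidableEq E] in
theorem sum_ic (src dst : E → V) (e : E) : ∑ x, ic src dst e x = 0 := by
  unfold ic
  rw [sum_sub_distrib]
  simp

omit [Fintype V] [Fintype E] [DecidableEq E] in
theorem sum_ic_Y (src dst : E → V) (e : E) (Y : Finset V) :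
    ∑ x ∈ Y, ic src dst e x = (if src e ∈ Y then 1 else 0) - (if dst e ∈ Y then 1 else 0) := by
  unfold ic
  rw [sum_sub_distrib, sum_ite_eq, sum_ite_eq]

/-- contraction of an edge in a cut with two edges -/
theorem red_two {src dst : E → V} {Y : Finset V} {e1 e2 : E} (hne : e1 ≠ e2)
    (hY : dlt src dst Y = {e1, e2})
    (h : NZF (phi (src e2) (dst e2) ∘ src) (phi (src e2) (dst e2) ∘ dst)) : NZF src dst := by
  obtain ⟨f, hf, hc⟩ := h
  have he2 : e2 ∈ dlt src dst Y := by rw [hY]; simp
  have hl : src e2 ≠ dst e2 := by
    intro h; rw [mem_dlt] at he2; apply he2; rw [h]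
  set u := src e2 with hu
  set v := dst e2 with hv
  -- the sum of the other edges at `u`
  set s : ZMod 4 := ∑ e ∈ univ.erase e2, f e * ic src dst e u with hs
  set g : E → ZMod 4 := Function.update f e2 (-s) with hg
  have hsplit : ∀ x, ∑ e, g e * ic src dst e x
      = (-s) * ic src dst e2 x + ∑ e ∈ univ.erase e2, f e * ic src dst e x := by
    intro x
    rw [← add_sum_erase univ _ (mem_univ e2)]
    congr 1
    · rw [hg, Function.update_self]
    · refine sum_congr rfl fun e he => ?_
      rw [hg, Function.update_of_ne (ne_of_mem_erase he)]
  have hu0 : ∑ e, g e * ic src dst e u = 0 := by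
    rw [hsplit]
    have : ic src dst e2 u = 1 := by
      unfold ic
      rw [if_pos hu.symm, if_neg (fun h => hl (by rw [← h]))]
      ring
    rw [this, ← hs]
    ring
  have hw0 : ∀ x, x ≠ u → x ≠ v → ∑ e, g e * ic src dst e x = 0 := by
    intro x hxu hxv
    rw [hsplit]
    have h1 : ic src dst e2 x = 0 := by
      unfold ic
      rw [if_neg (fun h => hxu (by rw [hu, h])), if_neg (fun h => hxv (by rw [hv, h]))]
      ring
    rw [h1, mul_zero, zero_add]
    have h2 : ∀ e, ic (phi u v ∘ src) (phi u v ∘ dst) e x = ic src dst e x := by
      intro e
      unfold ic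
      have h3 : ∀ y, (phi u v y = x ↔ y = x) := by
        intro y
        unfold phi
        by_cases hy : y = v
        · rw [if_pos hy]
          constructor
          · intro h; exact absurd h.symm hxu
          · intro h; exact absurd (h.symm.trans hy) hxv
        · rw [if_neg hy]
      simp only [Function.comp, h3]
    have h4 := hc x
    rw [← add_sum_erase univ _ (mem_univ e2)] at h4
    simp only [h2] at h4
    rw [h1, mul_zero, zero_add] at h4
    exact h4
  have hv0 : ∑ e, g e * ic src dst e v = 0 := by
    have h1 : ∑ x, ∑ e, g e * ic src dst e x = 0 := by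
      rw [sum_comm]
      refine sum_eq_zero fun e _ => ?_
      rw [← mul_sum, sum_ic, mul_zero]
    rw [← add_sum_erase univ _ (mem_univ v)] at h1
    have h2 : ∑ x ∈ univ.erase v, ∑ e, g e * ic src dst e x = 0 := by
      refine sum_eq_zero fun x hx => ?_
      by_cases hxu : x = u
      · rw [hxu]; exact hu0
      · exact hw0 x hxu (ne_of_mem_erase hx)
    rw [h2, add_zero] at h1
    exact h1
  have hall : ∀ x, ∑ e, g e * ic src dst e x = 0 := by
    intro x
    by_cases hxu : x = u
    · rw [hxu]; exact hu0
    · by_cases hxv : x = v
      · rw [hxv]; exact hv0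
      · exact hw0 x hxu hxv
  refine ⟨g, fun e => ?_, hall⟩
  by_cases he : e = e2
  · -- the cut
    have h1 : ∑ x ∈ Y, ∑ e, g e * ic src dst e x = 0 := sum_eq_zero fun x _ => hall x
    rw [sum_comm] at h1
    have h2 : ∀ e, ∑ x ∈ Y, g e * ic src dst e x
        = g e * ((if src e ∈ Y then 1 else 0) - (if dst e ∈ Y then 1 else 0)) := by
      intro e
      rw [← mul_sum, sum_ic_Y]
    rw [sum_congr rfl fun e _ => h2 e] at h1
    rw [← sum_subset (subset_univ (dlt src dst Y)) (by
      intro e _ hee
      rw [mem_dlt, not_not] at hee
      by_cases h3 : src e ∈ Y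
      · rw [if_pos h3, if_pos (hee.mp h3)]; ring
      · rw [if_neg h3, if_neg (fun h4 => h3 (hee.mpr h4))]; ring), hY,
      sum_pair hne] at h1
    intro h5
    rw [he] at h5
    rw [h5, zero_mul, add_zero] at h1
    have he1 : e1 ∈ dlt src dst Y := by rw [hY]; simp
    rw [mem_dlt] at he1
    have h6 : g e1 = f e1 := by rw [hg, Function.update_of_ne hne]
    rw [h6] at h1
    by_cases h3 : src e1 ∈ Y
    · have h4 : dst e1 ∉ Y := fun h4 => he1 ⟨fun _ => h4, fun _ => h3⟩
      rw [if_pos h3, if_neg h4] at h1
      apply hf e1
      linear_combination h1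
    · have h4 : dst e1 ∈ Y := by
        by_contra h4
        exact he1 ⟨fun h => absurd h h3, fun h => absurd h h4⟩
      rw [if_neg h3, if_pos h4] at h1
      apply hf e1
      linear_combination -h1
  · rw [hg, Function.update_of_ne he]
    exact hf e

/-- turning the edges in `D` into loops -/
def lp (src dst : E → V) (D : Finset E) (e : E) : V := if e ∈ D then src e else dst e

omit [Fintype V] [Fintype E] in
theorem ic_lp {src dst : E → V} {D : Finset E} (e : E) (x : V) :
    ic src (lp src dst D) e x = if e ∈ D then 0 else ic src dst e x := by
  unfold ic lp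
  by_cases h : e ∈ D
  · rw [if_pos h, if_pos h]; ring
  · rw [if_neg h, if_neg h]

theorem avoid_two : ∀ s b : ZMod 4, s ≠ 0 → ∃ a : ZMod 4, a ≠ 0 ∧ b - s * a ≠ 0 := by decide

omit [Fintype V] in
/-- a parallel edge -/
theorem red_par {src dst : E → V} {e e' : E} (hne : e' ≠ e) {x y : V}
    (h1 : Joins src dst e x y) (h2 : Joins src dst e' x y) (h : NZF src (lp src dst {e})) :
    NZF src dst := by
  obtain ⟨f, hf, hc⟩ := h
  obtain ⟨s, hs, hic⟩ : ∃ s : ZMod 4, s ≠ 0 ∧ ∀ z, ic src dst e z = s * ic src dst e' z := by
    rcases h1 with ⟨a1, a2⟩ | ⟨a1, a2⟩ <;> rcases h2 with ⟨b1, b2⟩ | ⟨b1, b2⟩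
    · refine ⟨1, by decide, fun z => ?_⟩
      unfold ic; rw [a1, a2, b1, b2]; ring
    · refine ⟨-1, by decide, fun z => ?_⟩
      unfold ic; rw [a1, a2, b1, b2]; ring
    · refine ⟨-1, by decide, fun z => ?_⟩
      unfold ic; rw [a1, a2, b1, b2]; ring
    · refine ⟨1, by decide, fun z => ?_⟩
      unfold ic; rw [a1, a2, b1, b2]; ring
  obtain ⟨a, ha, hb⟩ := avoid_two s (f e') hs
  refine ⟨Function.update (Function.update f e a) e' (f e' - s * a), ?_, ?_⟩
  · intro d
    by_cases hd : d = e'
    · rw [hd, Function.update_self]; exact hb
    · rw [Function.update_of_ne hd]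
      by_cases hd2 : d = e
      · rw [hd2, Function.update_self]; exact ha
      · rw [Function.update_of_ne hd2]; exact hf d
  · intro z
    have h3 := hc z
    have he' : e' ∈ univ.erase e := mem_erase.mpr ⟨hne, mem_univ _⟩
    rw [← add_sum_erase univ _ (mem_univ e), ← add_sum_erase _ _ he'] at h3 ⊢
    rw [Function.update_of_ne hne.symm, Function.update_self, Function.update_self, hic z]
    have h4 : ic src (lp src dst {e}) e z = 0 := ic_loop (by simp [lp]) z
    have h5 : ∀ d, d ≠ e → ic src (lp src dst {e}) d z = ic src dst d z := by
      intro d hd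
      rw [ic_lp, if_neg (by simpa using hd)]
    rw [h4, h5 e' hne, mul_zero, zero_add] at h3
    have h6 : ∑ d ∈ (univ.erase e).erase e',
        Function.update (Function.update f e a) e' (f e' - s * a) d * ic src dst d z
        = ∑ d ∈ (univ.erase e).erase e', f d * ic src (lp src dst {e}) d z := by
      refine sum_congr rfl fun d hd => ?_
      rw [mem_erase, mem_erase] at hd
      rw [Function.update_of_ne hd.1, Function.update_of_ne hd.2.1, h5 d hd.2.1]
    rw [h6]
    linear_combination h3

omit [Fintype V] in
/-- a cut with no edges -/
theorem red_zero {src dst : E → V} (D : Finset E)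
    (h1 : NZF src (lp src dst D)) (h2 : NZF src (lp src dst Dᶜ)) : NZF src dst := by
  obtain ⟨f, hf, hc⟩ := h1
  obtain ⟨g, hg, hd⟩ := h2
  refine ⟨fun e => if e ∈ D then g e else f e, fun e => ?_, fun x => ?_⟩
  · change (if e ∈ D then g e else f e) ≠ 0
    split_ifs
    · exact hg e
    · exact hf e
  · have h3 := hc x
    have h4 := hd x
    simp only [ic_lp] at h3 h4
    have h5 : ∀ e, (if e ∈ D then g e else f e) * ic src dst e x
        = f e * (if e ∈ D then 0 else ic src dst e x)
          + g e * (if e ∈ Dᶜ then 0 else ic src dst e x) := by
      intro e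
      by_cases h : e ∈ D
      · have h' : e ∉ Dᶜ := by simpa using h
        rw [if_pos h, if_pos h, if_neg h']; ring
      · have h' : e ∈ Dᶜ := by simpa using h
        rw [if_neg h, if_neg h, if_pos h']; ring
    rw [sum_congr rfl fun e _ => h5 e, sum_add_distrib, h3, h4, add_zero]

/-- number of edges that are not loops -/
def nl (src dst : E → V) : ℕ := (univ.filter (fun e => src e ≠ dst e)).card

theorem main_red (C : (E → V) → (E → V) → Prop)
    (C1 : ∀ src dst e, C src dst → src e ≠ dst e →
      C (phi (src e) (dst e) ∘ src) (phi (src e) (dst e) ∘ dst))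
    (C2 : ∀ src dst D, C src dst → C src (lp src dst D))
    (core : ∀ src dst, C src dst → H3 src dst → Smp src dst → NZF src dst) (m : ℕ) :
    ∀ src dst : E → V, nl src dst = m → (∀ Y, (dlt src dst Y).card ≠ 1) → C src dst →
      NZF src dst := by
  induction m using Nat.strong_induction_on with
  | _ m ih =>
    intro src dst hm hb hC
    by_cases hA : ∃ Y, (dlt src dst Y).card = 2
    · obtain ⟨Y, hY⟩ := hA
      obtain ⟨e1, e2, hne, hY2⟩ := card_eq_two.mp hY
      have he2 : e2 ∈ dlt src dst Y := by rw [hY2]; simp
      have hl : src e2 ≠ dst e2 := by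
        intro h; rw [mem_dlt] at he2; apply he2; rw [h]
      refine red_two hne hY2 (ih _ ?_ _ _ rfl ?_ (C1 _ _ _ hC hl))
      · rw [← hm]
        unfold nl
        apply card_lt_card
        rw [ssubset_iff_of_subset]
        · refine ⟨e2, by simpa using hl, ?_⟩
          simp only [mem_filter, mem_univ, true_and, not_not, Function.comp]
          unfold phi
          rw [if_neg hl, if_pos rfl]
        · intro e he
          simp only [mem_filter, mem_univ, true_and, Function.comp] at he ⊢
          intro h; exact he (by rw [h])
      · intro Z
        have h1 : dlt (phi (src e2) (dst e2) ∘ src) (phi (src e2) (dst e2) ∘ dst) Z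
            = dlt src dst (univ.filter (fun x => phi (src e2) (dst e2) x ∈ Z)) := by
          ext e
          rw [mem_dlt, mem_dlt]
          simp
        rw [h1]
        exact hb _
    · push Not at hA
      by_cases hB : Smp src dst
      · by_cases hD : H3 src dst
        · exact core _ _ hC hD hB
        · obtain ⟨Y, hY⟩ := not_forall.mp hD
          rw [not_or, not_or] at hY
          obtain ⟨h1, hY2, hY3⟩ := hY
          push Not at hY2 hY3
          obtain ⟨e1, h2, h3⟩ := hY2
          obtain ⟨e2, h4, h5⟩ := hY3
          have h6 : dlt src dst Y = ∅ := by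
            rw [← card_eq_zero]
            have a1 := hb Y
            have a2 := hA Y
            have a3 : ¬ 3 ≤ (dlt src dst Y).card := h1
            omega
          have h7 : ∀ e, (src e ∈ Y ↔ dst e ∈ Y) := by
            intro e
            by_contra h
            have : e ∈ dlt src dst Y := mem_dlt.mpr h
            rw [h6] at this
            simp at this
          have hs1 : src e1 ∉ Y := fun h => h3 h ((h7 e1).mp h)
          have hs2 : src e2 ∈ Y := by
            by_contra h
            exact h ((h7 e2).mpr (h5 h))
          refine red_zero (univ.filter (fun e => src e ∈ Y)) (ih _ ?_ _ _ rfl ?_ (C2 _ _ _ hC))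
            (ih _ ?_ _ _ rfl ?_ (C2 _ _ _ hC))
          · rw [← hm]
            unfold nl
            apply card_lt_card
            rw [ssubset_iff_of_subset]
            · refine ⟨e2, by simpa using h4, ?_⟩
              simp [lp, hs2]
            · intro e he
              simp only [mem_filter, mem_univ, true_and] at he ⊢
              intro h
              apply he
              unfold lp
              split_ifs
              · rfl
              · exact h
          · intro Z
            have h8 : dlt src (lp src dst (univ.filter (fun e => src e ∈ Y))) Z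
                = dlt src dst (Z \ Y) := by
              ext e
              rw [mem_dlt, mem_dlt]
              have := h7 e
              by_cases h : src e ∈ Y
              · simp [lp, h, this.mp h]
              · have h' : dst e ∉ Y := fun h' => h (this.mpr h')
                simp [lp, h, h']
            rw [h8]
            exact hb _
          · rw [← hm]
            unfold nl
            apply card_lt_card
            rw [ssubset_iff_of_subset]
            · refine ⟨e1, by simpa using h2, ?_⟩
              simp [lp, hs1]
            · intro e he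
              simp only [mem_filter, mem_univ, true_and] at he ⊢
              intro h
              apply he
              unfold lp
              split_ifs
              · rfl
              · exact h
          · intro Z
            have h8 : dlt src (lp src dst (univ.filter (fun e => src e ∈ Y))ᶜ) Z
                = dlt src dst (Z ∩ Y) := by
              ext e
              rw [mem_dlt, mem_dlt]
              have := h7 e
              by_cases h : src e ∈ Y
              · simp [lp, h, this.mp h]
              · have h' : dst e ∉ Y := fun h' => h (this.mpr h')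
                simp [lp, h, h']
            rw [h8]
            exact hb _
      · unfold Smp at hB
        push Not at hB
        obtain ⟨e, e', x, y, h1, h2, h3, h4⟩ := hB
        refine red_par h4 h2 h3 (ih _ ?_ _ _ rfl ?_ (C2 _ _ _ hC))
        · rw [← hm]
          unfold nl
          apply card_lt_card
          rw [ssubset_iff_of_subset]
          · refine ⟨e, by simpa using h1, ?_⟩
            simp [lp]
          · intro d hd
            simp only [mem_filter, mem_univ, true_and] at hd ⊢
            intro h
            apply hd
            unfold lp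
            split_ifs
            · rfl
            · exact h
        · intro Z hZ
          have h5 : dlt src (lp src dst {e}) Z = (dlt src dst Z).erase e := by
            ext d
            rw [mem_erase, mem_dlt, mem_dlt]
            by_cases h : d = e
            · subst h; simp [lp]
            · simp [lp, h]
          rw [h5] at hZ
          have h6 := hb Z
          have h7 := hA Z
          have h8 : (dlt src dst Z).card - 1 ≤ ((dlt src dst Z).erase e).card :=
            pred_card_le_card_erase
          have h9 : ((dlt src dst Z).erase e).card ≤ (dlt src dst Z).card := card_erase_le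
          omega

end Pool.Agent.TH462.PW
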