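import Mathlib
import Pool.Agent.TH462.PW.IntFlow
import Pool.Agent.TH462.PW.D4.All

set_option autoImplicit false

/-!
# Two even sets cover the edges of a bridgeless graph of pathwidth at most four (MP_e6539c_co)

Every bridgeless multigraph of pathwidth at most `4` has a nowhere-zero 4-flow, hence its edge set
is the union of two cycles (edge sets in which every vertex has even degree).  There is no
condition on the degrees or on the connectivity.  The Petersen graph has pathwidth `5`.

Proof.  Contracting an edge of a cut with two edges, deleting a parallel edge and splitting at empty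
cuts keep the pathwidth, so one may assume that the graph is simple and that all edge cuts have at
least three edges.  The vertices are explored in the order of a path decomposition.  The explored
part `P` has at most four vertices with unexplored neighbours; its state is the set of vectors of
`Z_4` on these vertices which are divergences of nowhere-zero functions on the edges inside `P`,
together with the partitions of these vertices which are separated by at most two edges inside `P`
(partitions which lead to a cut of the whole graph with fewer than three edges never occur).
There is a list of 58 states, closed under the exploration of one more vertex up to relabelling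
and passing to a weaker state, in which no set of vectors is empty; this closure is evaluated by the
kernel.
-/

namespace Pool.Agent.Results.MP_e6539c_co.PathwidthFour

open Pool.Agent.TH462.PW

variable {V E : Type}

/-- The edges with exactly one end in `Y`. -/
def boundary [DecidableEq V] [Fintype E] (src dst : E → V) (Y : Finset V) : Finset E :=
  Finset.univ.filter (fun e => ¬ (src e ∈ Y ↔ dst e ∈ Y))

/-- Kirchhoff's law. -/
def IsFlow [DecidableEq V] [Fintype E] (src dst : E → V) (f : E → ℤ) : Prop :=
  ∀ v : V, ∑ e ∈ Finset.univ.filter (fun e => src e = v), f e
    = ∑ e ∈ Finset.univ.filter (fun e => dst e = v), f e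

/-- The degree of `v` in the graph with edge set `C` (loops count twice). -/
def degreeIn [DecidableEq V] (src dst : E → V) (C : Finset E) (v : V) : ℕ :=
  (C.filter (fun e => src e = v)).card + (C.filter (fun e => dst e = v)).card

/-- `X 0, X 1, ...` is a path decomposition of width at most `w`: every edge has both ends in one
of the sets, every vertex lies in an interval of the sets, and the sets have at most `w + 1`
elements. -/
structure IsPathDecomposition [DecidableEq V] (src dst : E → V) (w : ℕ) (X : ℕ → Finset V) :
    Prop where
  edge : ∀ e, ∃ i, src e ∈ X i ∧ dst e ∈ X i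
  interval : ∀ i j k, i ≤ j → j ≤ k → X i ∩ X k ⊆ X j
  width : ∀ i, (X i).card ≤ w + 1

theorem isFlow_iff [DecidableEq V] [Fintype E] (src dst : E → V) (f : E → ℤ) :
    IsFlow src dst f ↔ ∀ v, ∑ e, f e * icz src dst e v = 0 := by
  unfold IsFlow icz
  refine forall_congr' fun v => ?_
  rw [Finset.sum_filter, Finset.sum_filter, ← sub_eq_zero, ← Finset.sum_sub_distrib]
  have : ∀ e, (if src e = v then f e else 0) - (if dst e = v then f e else 0)
      = f e * ((if src e = v then 1 else 0) - (if dst e = v then 1 else 0)) := by
    intro e
    by_cases h1 : src e = v <;> by_cases h2 : dst e = v <;> simp [h1, h2]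
  rw [Finset.sum_congr rfl (fun e _ => this e)]

theorem result :
    ∀ (V E : Type) [Fintype V] [DecidableEq V] [Fintype E] [DecidableEq E] (src dst : E → V)
      (X : ℕ → Finset V), IsPathDecomposition src dst 4 X →
      (∀ Y : Finset V, (boundary src dst Y).card ≠ 1) →
      (∃ C₁ C₂ : Finset E, C₁ ∪ C₂ = Finset.univ ∧ (∀ v, Even (degreeIn src dst C₁ v)) ∧
        ∀ v, Even (degreeIn src dst C₂ v)) ∧
      ∃ f : E → ℤ, IsFlow src dst f ∧ ∀ e, 1 ≤ |f e| ∧ |f e| ≤ 3 := by
  classical
  intro V E _ _ _ _ src dst X hX hb
  obtain ⟨F, hF, hF0⟩ := int_flow src dst
    (D4.flow src dst hb ⟨X, hX.edge, hX.interval, hX.width⟩)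
  refine ⟨?_, F, (isFlow_iff src dst F).mpr hF0, hF⟩
  obtain ⟨F1, F2, h1, h2, h12⟩ := two_even src dst F hF hF0
  have key : ∀ G : E → ℤ, (∀ v, ∑ e, G e * icz src dst e v = 0) →
      ∀ v, Even (degreeIn src dst (Finset.univ.filter (fun e => Odd (G e))) v) := by
    intro G hG v
    have := even_of_flow src dst G hG v
    unfold degreeIn
    rw [Finset.filter_filter, Finset.filter_filter]
    exact this
  refine ⟨Finset.univ.filter (fun e => Odd (F1 e)), Finset.univ.filter (fun e => Odd (F2 e)), ?_,
    key F1 h1, key F2 h2⟩
  ext e
  simp only [Finset.mem_union, Finset.mem_filter, Finset.mem_univ, true_and, iff_true]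
  exact h12 e

end Pool.Agent.Results.MP_e6539c_co.PathwidthFour
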