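import Pool.Agent.TH462.PW.Sound

set_option autoImplicit false

/-! # Adding one vertex to the explored part of the graph -/

namespace Pool.Agent.TH462.PW

open Finset

variable {V E : Type} [Fintype V] [DecidableEq V] [Fintype E] [DecidableEq E]

/-- edges (not loops) inside `P` -/
def ind (src dst : E → V) (P : Finset V) : Finset E :=
  univ.filter (fun e => src e ≠ dst e ∧ src e ∈ P ∧ dst e ∈ P)

/-- all neighbours of `x` are in `P` -/
def Cpt (src dst : E → V) (P : Finset V) (x : V) : Prop :=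
  ∀ e, src e ≠ dst e → (src e = x ∨ dst e = x) → src e ∈ P ∧ dst e ∈ P

def Nis (src dst : E → V) (x : V) : Prop := ∃ e, src e ≠ dst e ∧ (src e = x ∨ dst e = x)

/-- every edge cut has at least three edges -/
def H3 (src dst : E → V) : Prop := ∀ Y : Finset V,
  3 ≤ (univ.filter (fun e => ¬ (src e ∈ Y ↔ dst e ∈ Y))).card ∨
  (∀ e, src e ≠ dst e → src e ∈ Y ∧ dst e ∈ Y) ∨
  (∀ e, src e ≠ dst e → src e ∉ Y ∧ dst e ∉ Y)

/-- no parallel edges -/
def Smp (src dst : E → V) : Prop :=
  ∀ e e' x y, src e ≠ dst e → Joins src dst e x y → Joins src dst e' x y → e' = e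

omit [Fintype V] [DecidableEq E] in
theorem mem_ind {src dst : E → V} {P : Finset V} {e : E} :
    e ∈ ind src dst P ↔ src e ≠ dst e ∧ src e ∈ P ∧ dst e ∈ P := by
  simp [ind]

omit [Fintype V] [DecidableEq E] in
theorem cut_contra {src dst : E → V} (h3 : H3 src dst) {P Y : Finset V}
    (hY : ∀ x ∈ Y, Cpt src dst P x) (hc : cross src dst (ind src dst P) Y ≤ 2)
    {a b : V} (ha : a ∈ Y) (hna : Nis src dst a) (hb : b ∉ Y) (hnb : Nis src dst b) : False := by
  have h1 : (univ.filter (fun e => ¬ (src e ∈ Y ↔ dst e ∈ Y))).card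
      ≤ cross src dst (ind src dst P) Y := by
    unfold cross
    apply card_le_card
    intro e he
    rw [mem_filter] at he ⊢
    refine ⟨?_, he.2⟩
    have hne : src e ≠ dst e := by
      intro h; apply he.2; rw [h]
    rw [mem_ind]
    refine ⟨hne, ?_⟩
    by_cases h : src e ∈ Y
    · exact hY _ h e hne (Or.inl rfl)
    · have h' : dst e ∈ Y := by
        by_contra h'
        exact he.2 ⟨fun hh => absurd hh h, fun hh => absurd hh h'⟩
      exact hY _ h' e hne (Or.inr rfl)
  rcases h3 Y with h | h | h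
  · omega
  · obtain ⟨e, he, h2⟩ := hnb
    have := h e he
    rcases h2 with h2 | h2
    · exact hb (h2 ▸ this.1)
    · exact hb (h2 ▸ this.2)
  · obtain ⟨e, he, h2⟩ := hna
    have := h e he
    rcases h2 with h2 | h2
    · exact this.1 (h2 ▸ ha)
    · exact this.2 (h2 ▸ ha)

/-- labelling of a set of vertices -/
structure Lab (src dst : E → V) (P : Finset V) (k : ℕ) (β : ℕ → V) : Prop where
  inj : ∀ i j, i < k → j < k → β i = β j → i = j
  mem : ∀ i, i < k → β i ∈ P
  cpt : ∀ x ∈ P, (∀ i, i < k → β i ≠ x) → Cpt src dst P x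
  nis : ∀ i, i < k → Nis src dst (β i)

omit [Fintype V] [DecidableEq E] in
theorem contra1 {src dst : E → V} (h3 : H3 src dst) {P : Finset V} {k : ℕ} {β : ℕ → V}
    (hl : Lab src dst P k β) {L J j i0 : ℕ} (hC : Cl src dst (ind src dst P) P k β 2 L)
    (hJ : L.testBit J = true) (hJk : J < 2 ^ k) (hj : j < k) (hi0 : i0 < k) (hne : i0 ≠ j)
    (hd : ∀ i, i < k → (dg 2 J i = 1 ↔ i = j)) (hcj : Cpt src dst P (β j)) : False := by
  obtain ⟨Y, hY, h1, h2⟩ := hC J hJk hJ
  refine cut_contra h3 (Y := Y) ?_ h2 ((h1 j hj).mpr ((hd j hj).mpr rfl)) (hl.nis j hj)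
    (b := β i0) ?_ (hl.nis i0 hi0)
  · intro x hx
    by_cases h : ∀ i, i < k → β i ≠ x
    · exact hl.cpt x (hY hx) h
    · push Not at h
      obtain ⟨i, hi, rfl⟩ := h
      have := (hd i hi).mp ((h1 i hi).mp hx)
      rw [this]; exact hcj
  · intro h
    exact hne ((hd i0 hi0).mp ((h1 i0 hi0).mp h))

omit [Fintype V] [DecidableEq E] in
theorem contra2 {src dst : E → V} (h3 : H3 src dst) {P : Finset V} {k : ℕ} {β : ℕ → V}
    (hl : Lab src dst P k β) {L J j i0 : ℕ} (hC : Cl src dst (ind src dst P) P k β 2 L)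
    (hJ : L.testBit J = true) (hJk : J < 2 ^ k) (hj : j < k) (hi0 : i0 < k) (hne : i0 ≠ j)
    (hd : ∀ i, i < k → (dg 2 J i = 1 ↔ i ≠ j)) (hcj : Cpt src dst P (β j)) : False := by
  obtain ⟨Y, hY, h1, h2⟩ := hC J hJk hJ
  refine cut_contra h3 (P := P) (Y := P \ Y) ?_ ?_ (a := β j) ?_ (hl.nis j hj)
    (b := β i0) ?_ (hl.nis i0 hi0)
  · intro x hx
    rw [mem_sdiff] at hx
    by_cases h : ∀ i, i < k → β i ≠ x
    · exact hl.cpt x hx.1 h
    · push Not at h
      obtain ⟨i, hi, rfl⟩ := h
      have h4 : i = j := by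
        by_contra h5
        exact hx.2 ((h1 i hi).mpr ((hd i hi).mpr h5))
      rw [h4]; exact hcj
  · rw [cross_congr (Y' := Y)]
    · exact h2
    · intro e he
      rw [mem_ind] at he
      rw [mem_sdiff, mem_sdiff]
      simp only [he.2.1, he.2.2, true_and]
      tauto
  · rw [mem_sdiff]
    exact ⟨hl.mem j hj, fun h => ((hd j hj).mp ((h1 j hj).mp h)) rfl⟩
  · rw [mem_sdiff, not_and, not_not]
    intro _
    exact (h1 i0 hi0).mpr ((hd i0 hi0).mpr hne)

theorem dg_single {k j : ℕ} (i : ℕ) (_ : j < k) : dg 2 (2 ^ j) i = 1 ↔ i = j := by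
  have h := dg_top_add (k := j) (J := 0) (by positivity) i
  rw [add_zero] at h
  rw [h]
  by_cases hi : i = j
  · simp [hi]
  · simp [hi, dg_zero]

theorem dg_cosingle {k i j : ℕ} (hi : i < k) (hj : j < k) :
    dg 2 (2 ^ k - 1 - 2 ^ j) i = 1 ↔ i ≠ j := by
  obtain ⟨c0, h1, h2⟩ := dg_clear (b := 2) (by norm_num) (2 ^ k - 1) j
  rw [dg_full hj, one_mul] at h1
  have h3 : 2 ^ k - 1 - 2 ^ j = c0 := Nat.sub_eq_of_eq_add h1
  rw [h3]
  have h4 := dg_add (b := 2) (a := 1) (by norm_num) h2 (by norm_num) i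
  rw [one_mul, ← h1, dg_full hi] at h4
  by_cases hij : i = j
  · subst hij
    rw [h2]; simp
  · rw [if_neg hij] at h4
    simp [hij, ← h4]

theorem cosingle_lt {k j : ℕ} : 2 ^ k - 1 - 2 ^ j < 2 ^ k := by
  have : 0 < 2 ^ k := by positivity
  exact Nat.lt_of_le_of_lt (Nat.sub_le _ _) (Nat.sub_lt this one_pos)

omit [Fintype V] [DecidableEq E] in
theorem no_hit {src dst : E → V} (h3 : H3 src dst) {P : Finset V} {k : ℕ} {β : ℕ → V}
    (hl : Lab src dst P k β) {L j : ℕ} (hk : 2 ≤ k)
    (hC : Cl src dst (ind src dst P) P k β 2 L) (hj : j < k) (hcj : Cpt src dst P (β j))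
    (h : L.testBit (2 ^ j) = true ∨ L.testBit (2 ^ k - 1 - 2 ^ j) = true) : False := by
  obtain ⟨i0, hi0, hne⟩ : ∃ i0, i0 < k ∧ i0 ≠ j := by
    by_cases h0 : j = 0
    · exact ⟨1, by omega, by omega⟩
    · exact ⟨0, by omega, fun h => h0 h.symm⟩
  rcases h with h | h
  · exact contra1 h3 hl hC h (Nat.pow_lt_pow_right (by norm_num) hj) hj hi0 hne
      (fun i _ => dg_single i hj) hcj
  · exact contra2 h3 hl hC h cosingle_lt hj hi0 hne (fun i hi => dg_cosingle hi hj) hcj

/-- the explored part `P` with boundary `Z` is represented in the table -/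
def Good (tb : Tb) (src dst : E → V) (P Z : Finset V) : Prop :=
  ∃ (i k : ℕ) (β : ℕ → V), (tb.get i).k = k ∧
    Real src dst (ind src dst P) P k β (tb.get i).S (tb.get i).l0 (tb.get i).l1 (tb.get i).l2 ∧
    (∀ i j, i < k → j < k → β i = β j → i = j) ∧ (∀ x, x ∈ Z ↔ ∃ i, i < k ∧ β i = x)

omit [Fintype V] [DecidableEq E] in
theorem InT.good {tb : Tb} {src dst : E → V} {P Z : Finset V} {k : ℕ} {β : ℕ → V}
    (h : InT tb src dst (ind src dst P) P k β) (hinj : ∀ i j, i < k → j < k → β i = β j → i = j)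
    (hZ : ∀ x, x ∈ Z ↔ ∃ i, i < k ∧ β i = x) : Good tb src dst P Z := by
  obtain ⟨i, σ, h1, h2, h3, h4⟩ := h
  refine ⟨i, k, β ∘ σ, h1, h4, ?_, ?_⟩
  · intro a b ha hb hab
    exact σ.injective (hinj _ _ (h2 a ha) (h2 b hb) hab)
  · intro x
    rw [hZ]
    constructor
    · rintro ⟨a, ha, rfl⟩
      exact ⟨σ.symm a, h3 a ha, by simp⟩
    · rintro ⟨a, ha, rfl⟩
      exact ⟨σ a, h2 a ha, rfl⟩

/-- the data of a successful test -/
structure Tst (dflt : SwR) (Ev : Env) (tb : Tb) (W : ℕ) (s : St) : Prop where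
  kW : s.k ≤ W
  z : s.k = 0 → s.S.testBit 0 = true
  d : ∃ c κ, dfs dflt Ev tb W s.k (2 ^ s.k) (2 ^ (2 ^ s.k) - 1) (dM 2 s.k 1 (W - s.k))
    (dM 2 s.k 0 (W - s.k)) (4 ^ s.k) (Ev.pos.take s.k) [] s.S
    (opn (2 ^ s.k) (2 ^ (2 ^ s.k) - 1) s.l0) (opn (2 ^ s.k) (2 ^ (2 ^ s.k) - 1) s.l1)
    (opn (2 ^ s.k) (2 ^ (2 ^ s.k) - 1) s.l2) c κ = true
  f : ∃ c κ, forg dflt Ev tb s.k s.S s.l0 s.l1 s.l2 s.k c κ = true

theorem chk_tst {dflt : SwR} {Ev : Env} {tb : Tb} {W : ℕ} {s : St} {c : ℕ}
    (hE : Ev.OK W dflt) (h : chk dflt Ev tb W s c = true) : Tst dflt Ev tb W s := by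
  unfold chk at h
  simp only [fz_eq] at h
  rw [cnd_false_iff, cnd_false_iff] at h
  obtain ⟨h1, h2, h3⟩ := h
  have hk : s.k ≤ W := Nat.le_of_ble_eq_true h1
  refine ⟨hk, ?_, ⟨_, _, h3⟩, ?_⟩
  · intro h0
    rw [h0] at h2
    exact hit_iff h2
  · obtain ⟨c', h4⟩ := dfs_cont hE hk le_rfl _ _ _ _ _ _ _ _ h3
    exact ⟨_, _, h4⟩

theorem swap_lt' {p q k i : ℕ} (hp : p < k) (hq : q < k) (hi : i < k) :
    Equiv.swap p q i < k := by
  rw [Equiv.swap_apply_def]
  split_ifs <;> omega

omit [Fintype V] in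
/-- a boundary vertex becomes complete -/
theorem forget {dflt : SwR} {Ev : Env} {tb : Tb} {W : ℕ} (hE : Ev.OK W dflt)
    (hT : ∀ i, Tst dflt Ev tb W (tb.get i)) {src dst : E → V} (h3 : H3 src dst)
    {P Z : Finset V} (hG : Good tb src dst P Z) (hZP : Z ⊆ P)
    (hn : ∀ z ∈ Z, Nis src dst z) (hc : ∀ x ∈ P, x ∉ Z → Cpt src dst P x) {x : V} (hx : x ∈ Z)
    (hxc : Cpt src dst P x) : Good tb src dst P (Z.erase x) := by
  obtain ⟨i, k, β, hk, hR, hinj, hZ⟩ := hG
  obtain ⟨j, hj, rfl⟩ := (hZ x).mp hx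
  have hkW : k ≤ W := hk ▸ (hT i).kW
  have hl : Lab src dst P k β := ⟨hinj, fun i hi => hZP ((hZ _).mpr ⟨i, hi, rfl⟩),
    fun x hx h => hc x hx (fun h2 => by
      obtain ⟨a, ha, hb⟩ := (hZ x).mp h2
      exact h a ha hb), fun i hi => hn _ ((hZ _).mpr ⟨i, hi, rfl⟩)⟩
  obtain ⟨c, κ, hf⟩ := (hT i).f
  rw [hk] at hf
  obtain ⟨_, h1⟩ := forg_sound (V := V) (E := E) hE hkW k le_rfl c κ hf
  rcases h1 j hj with ⟨h2, h4⟩ | h2
  · exact absurd h4 (fun h4 => no_hit h3 hl h2 hR.c2 hj hxc h4)
  · have h4 := h2 src dst _ P β hR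
    refine h4.good ?_ ?_
    · intro a b ha hb hab
      have h5 := hinj _ _ (swap_lt' (p := j) (q := k - 1) (k := k) (by omega) (by omega)
        (by omega : a < k)) (swap_lt' (p := j) (q := k - 1) (k := k) (by omega) (by omega)
        (by omega : b < k)) hab
      exact (Equiv.swap j (k - 1)).injective h5
    · intro y
      rw [mem_erase, hZ]
      constructor
      · rintro ⟨hne, a, ha, rfl⟩
        have haj : a ≠ j := fun h => hne (h ▸ rfl)
        refine ⟨Equiv.swap j (k - 1) a, ?_, by simp⟩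
        rw [Equiv.swap_apply_def]
        split_ifs <;> omega
      · rintro ⟨a, ha, rfl⟩
        have h6 : Equiv.swap j (k - 1) a ≠ j := by
          rw [Equiv.swap_apply_def]
          split_ifs <;> omega
        have h7 : Equiv.swap j (k - 1) a < k := by
          rw [Equiv.swap_apply_def]
          split_ifs <;> omega
        exact ⟨fun h => h6 (hinj _ _ h7 hj h), _, h7, rfl⟩

omit [Fintype V] [DecidableEq V] [Fintype E] [DecidableEq E] in
theorem Cpt.mono {src dst : E → V} {P P' : Finset V} (h : P ⊆ P') {x : V}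
    (hx : Cpt src dst P x) : Cpt src dst P' x := fun e he h2 =>
  ⟨h (hx e he h2).1, h (hx e he h2).2⟩

/-- a new vertex is added and, if the boundary is full, one vertex is completed -/
theorem step {dflt : SwR} {Ev : Env} {tb : Tb} {W : ℕ} (hE : Ev.OK W dflt) (hW : 1 ≤ W)
    (hT : ∀ i, Tst dflt Ev tb W (tb.get i)) {src dst : E → V} (h3 : H3 src dst)
    (hS : Smp src dst) {P Z : Finset V} (hG : Good tb src dst P Z) (hZP : Z ⊆ P)
    (hn : ∀ z ∈ Z, Nis src dst z) (hc : ∀ x ∈ P, x ∉ Z → Cpt src dst P x)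
    (hnc : ∀ z ∈ Z, ¬ Cpt src dst P z)
    {v : V} (hv : v ∉ P) (hnv : Nis src dst v) :
    (Z.card < W ∧ Good tb src dst (insert v P) (insert v Z)) ∨
    (Z.card = W ∧ ∀ u ∈ insert v Z, Cpt src dst (insert v P) u →
      Good tb src dst (insert v P) ((insert v Z).erase u)) := by
  obtain ⟨i0, k, β, hk, hR, hinj, hZ⟩ := hG
  have hkW : k ≤ W := hk ▸ (hT i0).kW
  have hβP : ∀ i, i < k → β i ∈ P := fun i hi => hZP ((hZ _).mpr ⟨i, hi, rfl⟩)
  have hβv : ∀ i, i < k → β i ≠ v := fun i hi h => hv (h ▸ hβP i hi)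
  have hcard : Z.card = k := by
    have h1 : Z = (range k).image β := by
      ext x
      rw [hZ, mem_image]
      simp
    rw [h1, card_image_of_injOn, card_range]
    intro a ha b hb hab
    simp only [coe_range, Set.mem_Iio] at ha hb
    exact hinj a b ha hb hab
  have hFP : ∀ e ∈ ind src dst P, src e ∈ P ∧ dst e ∈ P := fun e he => (mem_ind.mp he).2
  obtain ⟨c, κ, hd⟩ := (hT i0).d
  rw [hk] at hd
  have hvm : VM k (dM 2 k 1 (W - k)) (dM 2 k 0 (W - k)) :=
    ⟨fun J hJ => ((dM_mem (by norm_num) (by norm_num) _ _ _).mp hJ).2,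
      fun J hJ => ((dM_mem (by norm_num) (by norm_num) _ _ _).mp hJ).2⟩
  have hRO : RealO src dst (ind src dst P) (insert v P) k β v (tb.get i0).S
      (opn (2 ^ k) (2 ^ (2 ^ k) - 1) (tb.get i0).l0)
      (opn (2 ^ k) (2 ^ (2 ^ k) - 1) (tb.get i0).l1)
      (opn (2 ^ k) (2 ^ (2 ^ k) - 1) (tb.get i0).l2) :=
    ⟨hR.fl.open v, hR.c0.open hv hβP hFP, hR.c1.open hv hβP hFP, hR.c2.open hv hβP hFP⟩
  obtain ⟨cho, T, l0, l1, l2, c', κ', Ff, hleaf, hRf, hsub, hF1, hF2, _, hcho⟩ :=
    dfs_sound (P := insert v P) hE hkW le_rfl hvm hinj hS _ _ _ _ _ _ _ _ (ind src dst P) hd hRO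
      (hE.pos k hkW) (hE.nd k hkW) (by
        rintro e he ⟨r, hr, hj⟩ hmem
        rw [mem_ind] at hmem
        rcases hj with ⟨h1, _⟩ | ⟨_, h1⟩
        · exact hv (h1 ▸ hmem.2.1)
        · exact hv (h1 ▸ hmem.2.2))
  have hFf : Ff = ind src dst (insert v P) := by
    ext e
    rw [mem_ind]
    constructor
    · intro he
      rcases hF1 e he with h1 | ⟨h1, r, hr, hj⟩
      · rw [mem_ind] at h1
        exact ⟨h1.1, mem_insert_of_mem h1.2.1, mem_insert_of_mem h1.2.2⟩
      · have hb : β r.p ∈ insert v P := mem_insert_of_mem (hβP _ (hE.pos k hkW r hr).2)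
        rcases hj with ⟨h4, h5⟩ | ⟨h4, h5⟩
        · exact ⟨h1, h4 ▸ mem_insert_self _ _, h5 ▸ hb⟩
        · exact ⟨h1, h4 ▸ hb, h5 ▸ mem_insert_self _ _⟩
    · rintro ⟨h1, h4, h5⟩
      have key : ∀ x, x ∈ P → Joins src dst e v x → e ∈ Ff := by
        intro x hx hj
        have hxZ : x ∈ Z := by
          by_contra hxZ
          have h6 := hc x hx hxZ e h1 (by
            rcases hj with ⟨_, h⟩ | ⟨h, _⟩
            · exact Or.inr h
            · exact Or.inl h)
          rcases hj with ⟨h, _⟩ | ⟨_, h⟩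
          · exact hv (h ▸ h6.1)
          · exact hv (h ▸ h6.2)
        obtain ⟨i, hi, rfl⟩ := (hZ x).mp hxZ
        obtain ⟨r, hr, rfl⟩ := hE.cov k hkW i hi
        exact hF2 e h1 ⟨r, hr, hj⟩
      rw [mem_insert] at h4 h5
      rcases h4 with h4 | h4 <;> rcases h5 with h5 | h5
      · exact absurd (h4.trans h5.symm) h1
      · exact key _ h5 (Or.inl ⟨h4, rfl⟩)
      · exact key _ h4 (Or.inr ⟨rfl, h5⟩)
      · exact hsub (mem_ind.mpr ⟨h1, h4, h5⟩)
  subst hFf
  -- the open labelling
  have hlab : Lab src dst (insert v P) (k + 1) (Function.update β k v) := by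
    refine ⟨?_, ?_, ?_, ?_⟩
    · intro a b ha hb hab
      by_cases h1 : a = k <;> by_cases h2 : b = k
      · rw [h1, h2]
      · rw [h1, Function.update_self, Function.update_of_ne h2] at hab
        exact absurd hab.symm (hβv b (by omega))
      · rw [h2, Function.update_self, Function.update_of_ne h1] at hab
        exact absurd hab (hβv a (by omega))
      · rw [Function.update_of_ne h2, Function.update_of_ne h1] at hab
        exact hinj a b (by omega) (by omega) hab
    · intro a ha
      by_cases h1 : a = k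
      · rw [h1, Function.update_self]; exact mem_insert_self _ _
      · rw [Function.update_of_ne h1]; exact mem_insert_of_mem (hβP a (by omega))
    · intro x hx h
      have hxv : x ≠ v := by
        intro h1
        apply h k (by omega)
        rw [Function.update_self, h1]
      have hxP : x ∈ P := (mem_insert.mp hx).resolve_left hxv
      refine (hc x hxP ?_).mono (subset_insert _ _)
      intro hxZ
      obtain ⟨i, hi, hix⟩ := (hZ x).mp hxZ
      apply h i (by omega)
      rw [Function.update_of_ne (by omega), hix]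
    · intro a ha
      by_cases h1 : a = k
      · rw [h1, Function.update_self]; exact hnv
      · rw [Function.update_of_ne h1]
        exact hn _ ((hZ _).mpr ⟨a, by omega, rfl⟩)
  unfold leaf at hleaf
  cases hb : Nat.beq k W with
  | false =>
    rw [hb] at hleaf
    have hkW' : k < W := lt_of_le_of_ne hkW (Nat.ne_of_beq_eq_false hb)
    left
    refine ⟨by omega, ?_⟩
    obtain ⟨_, h1⟩ := dom_sound (V := V) (E := E) hE (show Nat.succ k ≤ W by omega) hleaf
    have h2 := h1 src dst _ (insert v P) (Function.update β k v)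
      ⟨hRf.fl.keep hE hkW, hRf.c0, hRf.c1, hRf.c2⟩
    refine h2.good hlab.inj ?_
    intro x
    rw [mem_insert, hZ]
    constructor
    · rintro (h | ⟨i, hi, h⟩)
      · exact ⟨k, Nat.lt_succ_self k, by rw [Function.update_self, h]⟩
      · exact ⟨i, Nat.lt_succ_of_lt hi, by rw [Function.update_of_ne hi.ne, h]⟩
    · rintro ⟨i, hi, h⟩
      by_cases h1 : i = k
      · rw [h1, Function.update_self] at h
        exact Or.inl h.symm
      · rw [Function.update_of_ne h1] at h
        exact Or.inr ⟨i, by change i < k + 1 at hi; omega, h⟩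
  | true =>
    rw [hb] at hleaf
    have hkW' : k = W := Nat.eq_of_beq_eq_true hb
    right
    refine ⟨by omega, ?_⟩
    obtain ⟨⟨c2, h1⟩, h2⟩ := closeV_sound (V := V) (E := E) hE hkW hleaf
    obtain ⟨_, h4⟩ := closeUs_sound (V := V) (E := E) hE hkW cho c2 h1
    intro u hu hcu
    rw [mem_insert] at hu
    by_cases huv : u = v
    · subst huv
      have herase : (insert u Z).erase u = Z := by
        apply erase_insert
        intro h; exact hv (hZP h)
      rw [herase]
      have hh : Cpt src dst (insert u P) (Function.update β k u k) := by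
        rw [Function.update_self]; exact hcu
      have e5 : 2 ^ (k + 1) - 1 - 2 ^ k = 2 ^ k - 1 := by
        rw [pow_succ]; omega
      rcases h2 with h5 | h5 | h5
      · exact absurd (Or.inl h5) (fun h => no_hit h3 hlab (by omega) hRf.c2
          (Nat.lt_succ_self k) hh h)
      · rw [← e5] at h5
        exact absurd (Or.inr h5) (fun h => no_hit h3 hlab (by omega) hRf.c2
          (Nat.lt_succ_self k) hh h)
      · have h6 := h5 src dst _ (insert u P) (Function.update β k u) ⟨?_, hRf.c0.prj, hRf.c1.prj,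
          hRf.c2.prj⟩
        · refine h6.good (fun a b ha hb hab => hlab.inj a b (by omega) (by omega) hab) ?_
          intro x
          rw [hZ]
          constructor
          · rintro ⟨i, hi, h⟩
            exact ⟨i, hi, by rw [Function.update_of_ne hi.ne]; exact h⟩
          · rintro ⟨i, hi, h⟩
            rw [Function.update_of_ne hi.ne] at h
            exact ⟨i, hi, h⟩
        · intro c hc hcT
          refine (hRf.fl.close hE hkW c hc hcT).congr fun x => ?_
          refine push_congr (fun _ _ => rfl) (fun i hi _ => ?_) x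
          rw [Function.update_of_ne hi.ne]
    · have huZ : u ∈ Z := hu.resolve_left huv
      obtain ⟨j, hj, rfl⟩ := (hZ u).mp huZ
      obtain ⟨r, hr, rfl⟩ := hE.cov k hkW j hj
      have hrcho : r ∈ cho := by
        apply hcho r hr
        have h5 := hnc _ huZ
        unfold Cpt at h5
        push Not at h5
        obtain ⟨e, he, he2, he3⟩ := h5
        refine ⟨e, he, ?_⟩
        have h6 := hcu e he he2
        rw [mem_insert, mem_insert] at h6
        rcases he2 with h7 | h7
        · right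
          refine ⟨h7, ?_⟩
          rcases h6.2 with h8 | h8
          · exact h8
          · exact absurd h8 (he3 (h7 ▸ hβP _ hj))
        · left
          refine ⟨?_, h7⟩
          rcases h6.1 with h8 | h8
          · exact h8
          · exact absurd (h7 ▸ hβP _ hj) (he3 h8)
      have hrOK := (hE.pos k hkW r hr).1
      have hh : Cpt src dst (insert v P) (Function.update β k v r.p) := by
        rw [Function.update_of_ne hj.ne]; exact hcu
      rcases h4 r hrcho with h5 | h5
      · exfalso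
        obtain ⟨J, hJ⟩ := Nat.exists_testBit_ne_of_ne h5
        rw [Nat.zero_testBit, ne_eq, Bool.not_eq_false, tb_land, Bool.and_eq_true] at hJ
        refine no_hit h3 hlab (j := r.p) (by omega) hRf.c2 (by omega) hh (L := l2) ?_
        rcases hrOK.fm J hJ.2 with h6 | h6
        · left; rw [← h6]; exact hJ.1
        · right; rw [hkW', ← h6]; exact hJ.1
      · have h6 := h5 src dst _ (insert v P) (Function.update β r.p v)
          ⟨hRf.fl.fillU hE hkW hrOK hj, hRf.c0.prjU hrOK hj, hRf.c1.prjU hrOK hj,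
            hRf.c2.prjU hrOK hj⟩
        refine h6.good ?_ ?_
        · intro a b ha hb' hab
          by_cases h7 : a = r.p <;> by_cases h8 : b = r.p
          · rw [h7, h8]
          · rw [h7, Function.update_self, Function.update_of_ne h8] at hab
            exact absurd hab.symm (hβv b hb')
          · rw [h8, Function.update_self, Function.update_of_ne h7] at hab
            exact absurd hab (hβv a ha)
          · rw [Function.update_of_ne h8, Function.update_of_ne h7] at hab
            exact hinj a b ha hb' hab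
        · intro x
          rw [mem_erase, mem_insert, hZ]
          constructor
          · rintro ⟨hne, (h | ⟨i, hi, h⟩)⟩
            · exact ⟨r.p, hj, by rw [Function.update_self, h]⟩
            · refine ⟨i, hi, ?_⟩
              rw [Function.update_of_ne, h]
              rintro rfl
              exact hne h.symm
          · rintro ⟨i, hi, h⟩
            by_cases h7 : i = r.p
            · rw [h7, Function.update_self] at h
              rw [← h]
              exact ⟨(hβv _ hj).symm, Or.inl rfl⟩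
            · rw [Function.update_of_ne h7] at h
              refine ⟨?_, Or.inr ⟨i, hi, h⟩⟩
              rw [← h]
              intro h8
              exact h7 (hinj _ _ hi hj h8)

end Pool.Agent.TH462.PW
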